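import Pool.Agent.J4H97.SG.Main

/-!
# No analytic semigroup in `L¹(ℝ)` is bounded on the half-disc

`L¹(ℝ)` is `Lp ℂ 1 volume`; the product is convolution. Every analytic semigroup
`(a^t)`, `Re t > 0`, in `L¹(ℝ)` is unbounded on `{t : 0 < |t| ≤ 1, Re t > 0}`, and even on every
smaller half-disc `{t : |t| ≤ δ, Re t > 0}`, `δ > 0`.
-/

open MeasureTheory
open scoped Convolution

namespace Pool.Agent.Results.MP_8f84d8_an.NoHalfDiscSemigroup

/-- An analytic semigroup in `L¹(ℝ)`: `t ↦ a t` is holomorphic on the open right half-plane, with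
`a (s + t) = a s * a t` (convolution) there, and is not identically zero there. -/
def IsAnalyticSemigroup (a : ℂ → Lp ℂ 1 (volume : Measure ℝ)) : Prop :=
  DifferentiableOn ℂ a {t : ℂ | 0 < t.re} ∧
  (∀ s t : ℂ, 0 < s.re → 0 < t.re →
    (a (s + t) : ℝ → ℂ) =ᵐ[volume]
      ((a s : ℝ → ℂ) ⋆[ContinuousLinearMap.mul ℂ ℂ, volume] (a t : ℝ → ℂ))) ∧
  ∃ t : ℂ, 0 < t.re ∧ a t ≠ 0

/-- Every analytic semigroup in `L¹(ℝ)` is unbounded on every half-disc
`{t : 0 < |t| ≤ δ, Re t > 0}`; in particular (`δ = 1`) none is bounded on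
`{t : 0 < |t| ≤ 1, Re t > 0}`. -/
theorem result (a : ℂ → Lp ℂ 1 (volume : Measure ℝ)) (ha : IsAnalyticSemigroup a)
    (δ : ℝ) (hδ : 0 < δ) (C : ℝ) :
    ∃ t : ℂ, 0 < ‖t‖ ∧ ‖t‖ ≤ δ ∧ 0 < t.re ∧ C < ‖a t‖ := by
  obtain ⟨hd, hm, t₀, ht₀, hat₀⟩ := ha
  by_contra hcon
  push Not at hcon
  have hre : ∀ t : ℂ, 0 < t.re → 0 < ((δ : ℂ) * t).re := by
    intro t ht
    rw [Complex.mul_re, Complex.ofReal_re, Complex.ofReal_im, zero_mul, sub_zero]
    positivity
  have hδc : (δ : ℂ) ≠ 0 := by exact_mod_cast hδ.ne'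
  refine Pool.Agent.J4H97.SG.main (fun t => a ((δ : ℂ) * t)) ?_ ?_ ?_ C ?_
  · refine hd.comp ?_ (fun t ht => hre t ht)
    exact (differentiable_id.const_mul (δ : ℂ)).differentiableOn
  · intro s t hs ht
    rw [mul_add]
    exact hm _ _ (hre s hs) (hre t ht)
  · refine ⟨t₀ / δ, ?_, ?_⟩
    · rw [Complex.div_ofReal_re]
      positivity
    · rw [mul_div_cancel₀ _ hδc]
      exact hat₀
  · intro t ht htn
    refine hcon _ ?_ ?_ (hre t ht)
    · rw [norm_pos_iff]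
      intro h0
      have := hre t ht
      rw [h0] at this
      simp at this
    · rw [norm_mul, Complex.norm_real, Real.norm_of_nonneg hδ.le]
      nlinarith

end Pool.Agent.Results.MP_8f84d8_an.NoHalfDiscSemigroup
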